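import Pool.Agent.Q10.Growth.Core

/-!
# The maximal spanning time of a neighborhood growth is at most `6 s ^ 3`

`Z` is a zero-set (a finite Young diagram in the quarter plane), `T Z` the growth map on subsets of
the quarter plane, `mu Z` the maximal spanning time of the finite spanning sets, and `side Z` the
side of the largest square contained in `Z`.
-/

set_option autoImplicit false

open Set

namespace Pool.Agent.Results.MP_e645df_co.PolynomialSpanningTime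

/-- The rectangle `R_{a,b}`. -/
def rect (a b : ℕ) : Set (ℕ × ℕ) := {p | p.1 < a ∧ p.2 < b}

/-- Zero-sets: finite unions of rectangles `R_{a,b}` with `a, b ≥ 1`. -/
def IsZeroSet (Z : Set (ℕ × ℕ)) : Prop :=
  ∃ I : Set (ℕ × ℕ), I.Finite ∧ (∀ p ∈ I, 1 ≤ p.1 ∧ 1 ≤ p.2) ∧ Z = ⋃ p ∈ I, rect p.1 p.2

/-- `row(x, A)`: the number of points of `A` on the horizontal line through `x`. -/
noncomputable def row (x : ℕ × ℕ) (A : Set (ℕ × ℕ)) : ℕ∞ := {y ∈ A | y.2 = x.2}.encard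

/-- `col(x, A)`: the number of points of `A` on the vertical line through `x`. -/
noncomputable def col (x : ℕ × ℕ) (A : Set (ℕ × ℕ)) : ℕ∞ := {y ∈ A | y.1 = x.1}.encard

/-- The growth map: a point `x` is added if the pair `(row(x, A), col(x, A))` is not in `Z`. -/
def T (Z A : Set (ℕ × ℕ)) : Set (ℕ × ℕ) :=
  A ∪ {x | ¬ ∃ p ∈ Z, row x A = (p.1 : ℕ∞) ∧ col x A = (p.2 : ℕ∞)}

/-- `A` spans for the zero-set `Z`. -/
def Spans (Z A : Set (ℕ × ℕ)) : Prop := ⋃ t : ℕ, (T Z)^[t] A = univ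

/-- The spanning time. -/
noncomputable def tau (Z A : Set (ℕ × ℕ)) : ℕ := sInf {t | (T Z)^[t] A = univ}

/-- The maximal spanning time: the supremum of the spanning times of the finite spanning sets. -/
noncomputable def mu (Z : Set (ℕ × ℕ)) : ℕ∞ :=
  ⨆ A ∈ {A : Set (ℕ × ℕ) | A.Finite ∧ Spans Z A}, (tau Z A : ℕ∞)

/-- The side of the largest square contained in `Z`. -/
noncomputable def side (Z : Set (ℕ × ℕ)) : ℕ := sSup {s | rect s s ⊆ Z}

theorem IsZeroSet.lower {Z : Set (ℕ × ℕ)} (hZ : IsZeroSet Z) {a b c d : ℕ} (hac : a ≤ c)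
    (hbd : b ≤ d) (h : (c, d) ∈ Z) : (a, b) ∈ Z := by
  obtain ⟨I, _, _, rfl⟩ := hZ
  simp only [mem_iUnion, rect, mem_setOf_eq] at h ⊢
  obtain ⟨p, hp, h1, h2⟩ := h
  exact ⟨p, hp, by omega, by omega⟩

theorem IsZeroSet.bdd {Z : Set (ℕ × ℕ)} (hZ : IsZeroSet Z) : BddAbove {s | rect s s ⊆ Z} := by
  obtain ⟨I, hI, _, rfl⟩ := hZ
  obtain ⟨M, hM⟩ := (hI.image (fun p : ℕ × ℕ => p.1)).bddAbove
  refine ⟨M, fun s hs => ?_⟩
  by_contra hlt
  push Not at hlt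
  have h1 : ((M, 0) : ℕ × ℕ) ∈ rect s s := ⟨hlt, by omega⟩
  have h2 := hs h1
  simp only [mem_iUnion, rect, mem_setOf_eq] at h2
  obtain ⟨p, hp, h3, _⟩ := h2
  have h4 : p.1 ≤ M := hM (mem_image_of_mem (fun p : ℕ × ℕ => p.1) hp)
  omega

theorem side_sub {Z : Set (ℕ × ℕ)} (hZ : IsZeroSet Z) : rect (side Z) (side Z) ⊆ Z :=
  Nat.sSup_mem (s := {s | rect s s ⊆ Z}) ⟨0, fun p hp => absurd hp.1 (Nat.not_lt_zero _)⟩ hZ.bdd

theorem side_not_mem {Z : Set (ℕ × ℕ)} (hZ : IsZeroSet Z) : (side Z, side Z) ∉ Z := by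
  intro h
  have h1 : side Z + 1 ∈ {s | rect s s ⊆ Z} := by
    intro p hp
    have h2 : p.1 < side Z + 1 := hp.1
    have h3 : p.2 < side Z + 1 := hp.2
    exact hZ.lower (by omega) (by omega) h
  have h2 : side Z + 1 ≤ side Z := le_csSup hZ.bdd h1
  omega

/-- the condition for adding a point -/
def Pz (Z : Set (ℕ × ℕ)) (m n : ℕ∞) : Prop := ¬ ∃ p ∈ Z, m = (p.1 : ℕ∞) ∧ n = (p.2 : ℕ∞)

theorem good {Z : Set (ℕ × ℕ)} (hZ : IsZeroSet Z) : Q10.Growth.Good (Pz Z) (side Z) where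
  mono := by
    rintro m n m' n' hm hn h ⟨⟨c, d⟩, hp, rfl, rfl⟩
    have hm' : m ≠ ⊤ := ne_top_of_le_ne_top (ENat.natCast_ne_top c) hm
    have hn' : n ≠ ⊤ := ne_top_of_le_ne_top (ENat.natCast_ne_top d) hn
    obtain ⟨a, rfl⟩ := ENat.ne_top_iff_exists.1 hm'
    obtain ⟨b, rfl⟩ := ENat.ne_top_iff_exists.1 hn'
    exact h ⟨(a, b), hZ.lower (by exact_mod_cast hm) (by exact_mod_cast hn) hp, rfl, rfl⟩
  big := by
    rintro m n hm hn ⟨⟨c, d⟩, hp, rfl, rfl⟩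
    exact side_not_mem hZ (hZ.lower (by exact_mod_cast hm) (by exact_mod_cast hn) hp)
  left := by
    intro m d hd h
    by_contra hlt
    push Not at hlt
    obtain ⟨a, rfl⟩ := ENat.ne_top_iff_exists.1 (ne_top_of_lt hlt)
    have ha : a < side Z := by exact_mod_cast hlt
    exact h ⟨(a, d), side_sub hZ ⟨ha, hd⟩, rfl, rfl⟩
  right := by
    intro e n he h
    by_contra hlt
    push Not at hlt
    obtain ⟨b, rfl⟩ := ENat.ne_top_iff_exists.1 (ne_top_of_lt hlt)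
    have hb : b < side Z := by exact_mod_cast hlt
    exact h ⟨(e, b), side_sub hZ ⟨he, hb⟩, rfl, rfl⟩

theorem row_eq (x : ℕ × ℕ) (A : Set (ℕ × ℕ)) : row x A = Q10.Growth.R A x.2 := by
  have h : {y ∈ A | y.2 = x.2} = (fun i => (i, x.2)) '' {i | (i, x.2) ∈ A} := by
    ext ⟨i, j⟩
    simp only [mem_setOf_eq, mem_image, Prod.mk.injEq]
    constructor
    · rintro ⟨h, rfl⟩
      exact ⟨i, h, rfl, rfl⟩
    · rintro ⟨_, h, rfl, rfl⟩
      exact ⟨h, rfl⟩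
  rw [row, h, InjOn.encard_image (fun a _ b _ hab => congrArg Prod.fst hab)]
  rfl

theorem col_eq (x : ℕ × ℕ) (A : Set (ℕ × ℕ)) : col x A = Q10.Growth.C A x.1 := by
  have h : {y ∈ A | y.1 = x.1} = (fun j => (x.1, j)) '' {j | (x.1, j) ∈ A} := by
    ext ⟨i, j⟩
    simp only [mem_setOf_eq, mem_image, Prod.mk.injEq]
    constructor
    · rintro ⟨h, rfl⟩
      exact ⟨j, h, rfl, rfl⟩
    · rintro ⟨_, h, rfl, rfl⟩
      exact ⟨h, rfl⟩
  rw [col, h, InjOn.encard_image (fun a _ b _ hab => congrArg Prod.snd hab)]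
  rfl

theorem T_eq (Z : Set (ℕ × ℕ)) : T Z = Q10.Growth.G (Pz Z) := by
  funext A
  simp only [T, Q10.Growth.G, Pz, row_eq, col_eq]

/-- Every spanning set, finite or not, spans in at most `(s + 1) * (s ^ 2 + s + 1)` steps. -/
theorem tau_le {Z : Set (ℕ × ℕ)} (hZ : IsZeroSet Z) {A : Set (ℕ × ℕ)} (hA : Spans Z A) :
    (T Z)^[(side Z + 1) * (side Z ^ 2 + side Z + 1)] A = univ := by
  unfold Spans at hA
  rw [T_eq] at hA ⊢
  exact Q10.Growth.bound (good hZ) A hA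

/-- **The maximal spanning time is polynomially bounded by the side of the largest square.**
(1) For every zero-set `Z` with largest square of side `s`, every set `A` (finite or infinite) which
spans for `Z` satisfies `T^t(A) = Z_+^2` for `t = (s + 1) (s ^ 2 + s + 1)`; hence
`mu Z ≤ (s + 1) (s ^ 2 + s + 1)`.
(2) There are a finite exponent `α > 0` (namely `α = 3`) and a constant `C` such that
`mu Z ≤ C s ^ α` for every nonempty zero-set `Z`. -/
theorem result :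
    (∀ Z : Set (ℕ × ℕ), IsZeroSet Z →
      (∀ A, Spans Z A → (T Z)^[(side Z + 1) * (side Z ^ 2 + side Z + 1)] A = univ) ∧
      mu Z ≤ (((side Z + 1) * (side Z ^ 2 + side Z + 1) : ℕ) : ℕ∞)) ∧
    (∃ α : ℝ, 0 < α ∧ ∃ C : ℝ, ∀ Z : Set (ℕ × ℕ), IsZeroSet Z → Z.Nonempty →
      1 ≤ side Z ∧ mu Z ≠ ⊤ ∧ ((mu Z).toNat : ℝ) ≤ C * (side Z : ℝ) ^ α) := by
  have h1 : ∀ Z : Set (ℕ × ℕ), IsZeroSet Z →
      (∀ A, Spans Z A → (T Z)^[(side Z + 1) * (side Z ^ 2 + side Z + 1)] A = univ) ∧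
      mu Z ≤ (((side Z + 1) * (side Z ^ 2 + side Z + 1) : ℕ) : ℕ∞) := by
    intro Z hZ
    refine ⟨fun A hA => tau_le hZ hA, iSup₂_le fun A hA => ?_⟩
    exact_mod_cast Nat.sInf_le (tau_le hZ hA.2)
  refine ⟨h1, 3, by norm_num, 6, fun Z hZ hne => ?_⟩
  have hs : 1 ≤ side Z := by
    apply le_csSup hZ.bdd
    intro p hp
    have h2 : p.1 < 1 := hp.1
    have h3 : p.2 < 1 := hp.2
    obtain ⟨⟨c, d⟩, hq⟩ := hne
    exact hZ.lower (by omega) (by omega) hq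
  have h2 := (h1 Z hZ).2
  have h3 : mu Z ≠ ⊤ := ne_top_of_le_ne_top (ENat.natCast_ne_top _) h2
  refine ⟨hs, h3, ?_⟩
  have h4 : (mu Z).toNat ≤ (side Z + 1) * (side Z ^ 2 + side Z + 1) := by
    have := ENat.toNat_le_toNat h2 (ENat.natCast_ne_top _)
    rwa [ENat.toNat_natCast] at this
  have h5 : (side Z + 1) * (side Z ^ 2 + side Z + 1) ≤ 6 * side Z ^ 3 := by
    obtain ⟨k, hk⟩ := Nat.exists_eq_add_of_le hs
    rw [hk]
    nlinarith [Nat.zero_le (k ^ 3), Nat.zero_le (k ^ 2), Nat.zero_le k]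
  have h6 : ((mu Z).toNat : ℝ) ≤ ((6 * side Z ^ 3 : ℕ) : ℝ) := by exact_mod_cast h4.trans h5
  have h7 : (side Z : ℝ) ^ (3 : ℝ) = (side Z : ℝ) ^ 3 := by
    rw [← Real.rpow_natCast]
    norm_num
  rw [h7]
  refine h6.trans (le_of_eq ?_)
  push_cast
  ring

end Pool.Agent.Results.MP_e645df_co.PolynomialSpanningTime
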